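import Pool.Agent.Helper50.FE.Goals

/-! Packet FE-WIN: a short logarithmic window contains a bounded number of exceptional integers. -/

set_option autoImplicit false

open Finset Pool.Agent.Helper22.FSU

namespace Pool.Agent.Helper9.FE

theorem greedyR (ρ Kd : ℕ) : ∀ (j : ℕ) (W : Finset ℕ),
    (∀ y ∈ W, (W.filter fun z => y ≤ z ∧ z < ρ * y).card ≤ Kd) → j * Kd < W.card →
    ∃ n : Fin (j + 1) → ℕ, (∀ i, n i ∈ W) ∧ ∀ i i', i < i' → ρ * n i ≤ n i' := by
  classical
  intro j
  induction j with
  | zero =>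
    intro W _ hc
    have hne : W.Nonempty := by rw [← Finset.card_pos]; omega
    obtain ⟨y, hy⟩ := hne
    refine ⟨fun _ => y, fun _ => hy, fun i i' h => ?_⟩
    have h1 := i.isLt
    have h2 := i'.isLt
    have h3 : i.val < i'.val := h
    omega
  | succ j ih =>
    intro W hW hc
    have hne : W.Nonempty := by rw [← Finset.card_pos]; omega
    set y := W.min' hne with hy
    have hyW : y ∈ W := Finset.min'_mem _ _
    have h1 := hW y hyW
    set W' := W.filter fun z => ρ * y ≤ z with hW'
    have hsplit : W ⊆ (W.filter fun z => y ≤ z ∧ z < ρ * y) ∪ W' := by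
      intro z hz
      rw [Finset.mem_union, Finset.mem_filter, hW', Finset.mem_filter]
      have := Finset.min'_le W z hz
      rcases lt_or_ge z (ρ * y) with h | h
      · exact Or.inl ⟨hz, this, h⟩
      · exact Or.inr ⟨hz, h⟩
    have hcard := (Finset.card_le_card hsplit).trans (Finset.card_union_le _ _)
    have hc' : j * Kd < W'.card := by
      rw [Nat.succ_mul] at hc
      omega
    obtain ⟨n, hn, hch⟩ := ih W' (by
      intro z hz
      have hzW : z ∈ W := (Finset.mem_filter.mp hz).1
      refine le_trans (Finset.card_le_card ?_) (hW z hzW)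
      exact Finset.filter_subset_filter _ (Finset.filter_subset _ _)) hc'
    refine ⟨Fin.cons y n, ?_, ?_⟩
    · intro i
      refine Fin.cases ?_ (fun i => ?_) i
      · simpa using hyW
      · simpa using (Finset.mem_filter.mp (hn i)).1
    · intro i i' hii
      revert hii
      refine Fin.cases ?_ (fun i => ?_) i
      · refine Fin.cases ?_ (fun i' => ?_) i'
        · intro h; exact absurd h (lt_irrefl _)
        · intro _
          simpa using (Finset.mem_filter.mp (hn i')).2
      · refine Fin.cases ?_ (fun i' => ?_) i'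
        · intro h; exact absurd h (by simp)
        · intro h
          simpa using hch i i' (by simpa using h)

theorem goalWIN (h : Pool.Agent.Helper50.FE.CORE) : Pool.Agent.Helper50.FE.WIN := by
  classical
  intro S hS η hη hη1
  obtain ⟨m, ρ, xc, δ, ε, hm, hρ, hδ, hε, hcore⟩ := h S hS η hη hη1
  obtain ⟨Kd, xd, hdy⟩ := dyadic hS hη
  obtain ⟨j, rfl⟩ : ∃ j, m = j + 1 := ⟨m - 1, by omega⟩
  set N : ℕ := ⌊2 / δ⌋₊ with hN
  set xe : ℕ := ⌈Real.exp (4 / η)⌉₊ with hxe
  refine ⟨Fintype.card (S → Fin (N + 1)) * (j * (Kd * ρ)), xc + xd + xe + 3, ε, hε, ?_⟩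
  intro x hx W hW
  by_contra hcon
  push Not at hcon
  have hch : ∀ y, ∃ k, y ∈ W → Near S (1 - η) y k := by
    intro y
    by_cases hy : y ∈ W
    · obtain ⟨k, hk⟩ := (hW y hy).2.2
      exact ⟨k, fun _ => hk⟩
    · exact ⟨fun _ => 0, fun h => absurd h hy⟩
  choose k hk using hch
  -- basic facts for elements of `W`
  have hfac : ∀ y ∈ W, 1 ≤ Real.log (y.factorial : ℝ) := by
    intro y hy
    have h1 := (hW y hy).1
    have h2 : 3 ≤ y := by omega
    have h3 := one_le_log_of_three_le h2
    have h4 : (y : ℝ) ≤ (y.factorial : ℝ) := by exact_mod_cast Nat.self_le_factorial y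
    have h5 : (0 : ℝ) < y := by
      have : 0 < y := by omega
      exact_mod_cast this
    exact h3.trans (Real.log_le_log h5 h4)
  have hlogp : ∀ p ∈ S, 0 ≤ Real.log (p : ℝ) := by
    intro p hp
    apply Real.log_nonneg
    exact_mod_cast (hS p hp).one_lt.le
  have hsize : ∀ y ∈ W, ∀ p ∈ S, (k y p : ℝ) * Real.log p ≤ 2 * Real.log (y.factorial : ℝ) := by
    intro y hy p hp
    have h1 := (hW y hy).1
    have h2 : 3 ≤ y := by omega
    have h3 : Real.exp (4 / η) ≤ y := by
      have h4 := Nat.le_ceil (Real.exp (4 / η))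
      have h5 : ((⌈Real.exp (4 / η)⌉₊ : ℕ) : ℝ) ≤ y := by
        have : ⌈Real.exp (4 / η)⌉₊ ≤ y := by rw [← hxe]; omega
        exact_mod_cast this
      linarith
    have hy0 : (0 : ℝ) < y := by
      have : 0 < y := by omega
      exact_mod_cast this
    have h6 : 4 ≤ η * Real.log y := by
      have h7 := (Real.le_log_iff_exp_le hy0).mpr h3
      rw [div_le_iff₀ hη] at h7
      linarith
    have hsu : (0 : ℝ) < (su S (k y) : ℝ) := by exact_mod_cast su_pos hS (k y)
    have h8 := (approx hη h2 h6 hsu (hk y hy)).1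
    have h9 : Real.exp (-(η / 2) * (y * Real.log y)) ≤ 1 := by
      rw [Real.exp_le_one_iff]
      have : 0 ≤ (η / 2) * (y * Real.log y) := by
        have := one_le_log_of_three_le h2
        positivity
      linarith
    have h10 := (abs_le.mp (h8.trans h9)).1
    have h11 := hfac y hy
    have h12 : (k y p : ℝ) * Real.log p ≤ Real.log (su S (k y)) := by
      rw [log_su hS]
      exact Finset.single_le_sum (f := fun q : ℕ => (k y q : ℝ) * Real.log q)
        (fun q hq => mul_nonneg (Nat.cast_nonneg _) (hlogp q hq)) hp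
    linarith
  -- the classes
  set f : ℕ → (S → Fin (N + 1)) := fun y p =>
    ⟨min N ⌊(k y p : ℝ) * Real.log (p : ℕ) / (δ * Real.log (y.factorial : ℝ))⌋₊, by omega⟩ with hf
  obtain ⟨c, -, hc⟩ := Finset.exists_lt_card_fiber_of_mul_lt_card_of_maps_to
    (s := W) (t := Finset.univ) (f := f) (n := j * (Kd * ρ)) (fun _ _ => Finset.mem_univ _)
    (by rw [Finset.card_univ]; exact hcon)
  set V := W.filter (fun y => f y = c) with hV
  have hVW : ∀ y ∈ V, y ∈ W := fun y hy => (Finset.mem_filter.mp hy).1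
  obtain ⟨n, hn, hnch⟩ := greedyR ρ (Kd * ρ) j V (by
    intro y hy
    have hyW := hVW y hy
    have hb := blocks (fun z => ∃ k, Near S (1 - η) z k) y 2 Kd (by norm_num) ρ (by
      intro i _
      apply hdy (y * 2 ^ i)
      · have h1 : y ≤ y * 2 ^ i := Nat.le_mul_of_pos_right _ (by positivity)
        have h2 := (hW y hyW).1
        omega
      · intro v hv
        have hv' := Finset.mem_filter.mp hv
        have hv2 := Finset.mem_Ico.mp hv'.1
        exact ⟨hv2.1, by rw [pow_succ] at hv2; linarith [hv2.2], hv'.2⟩)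
    refine le_trans (Finset.card_le_card ?_) hb
    intro z hz
    have hz' := Finset.mem_filter.mp hz
    rw [Finset.mem_filter, Finset.mem_Ico]
    refine ⟨⟨hz'.2.1, ?_⟩, (hW z (hVW z hz'.1)).2.2⟩
    have h1 : ρ ≤ 2 ^ ρ := Nat.lt_two_pow_self.le
    calc z < ρ * y := hz'.2.2
      _ ≤ 2 ^ ρ * y := Nat.mul_le_mul_right _ h1
      _ = y * 2 ^ ρ := mul_comm _ _) hc
  have hnW : ∀ i, n i ∈ W := fun i => hVW _ (hn i)
  refine hcore n (fun i => k (n i))
    (fun p => if hp : p ∈ S then δ * ((c ⟨p, hp⟩ : ℕ) : ℝ) else 0) ?_ ?_ hnch ?_ ?_ ?_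
  · intro i
    have := (hW _ (hnW i)).1
    omega
  · intro i i'
    have h1 := (hW _ (hnW i)).2.1
    have h2 := (hW _ (hnW i')).1
    have h3 : (0 : ℝ) < x := by
      have : 0 < x := by omega
      exact_mod_cast this
    have h4 : Real.log x ≤ Real.log (n i') := Real.log_le_log h3 (by exact_mod_cast h2)
    have h5 : (1 + ε) * Real.log x ≤ (1 + ε) * Real.log (n i') :=
      mul_le_mul_of_nonneg_left h4 (by linarith)
    linarith
  · intro i
    exact hk _ (hnW i)
  · intro p hp
    simp only [hp, dite_true]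
    positivity
  · intro i p hp
    simp only [hp, dite_true]
    have hfi : f (n i) = c := (Finset.mem_filter.mp (hn i)).2
    have hL := hfac _ (hnW i)
    set L := Real.log ((n i).factorial : ℝ) with hLdef
    have hδL : 0 < δ * L := by positivity
    set q := (k (n i) p : ℝ) * Real.log p / (δ * L) with hq
    have hq0 : 0 ≤ q := div_nonneg (mul_nonneg (Nat.cast_nonneg _) (hlogp p hp)) hδL.le
    have hq2 : q ≤ 2 / δ := by
      rw [hq, div_le_div_iff₀ hδL hδ]
      have := hsize _ (hnW i) p hp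
      nlinarith
    have hfl : ⌊q⌋₊ ≤ N := Nat.floor_le_floor hq2
    have hcv : ((c ⟨p, hp⟩ : Fin (N + 1)) : ℕ) = ⌊q⌋₊ := by
      rw [← hfi]
      simp only [hf]
      exact min_eq_right hfl
    rw [hcv]
    have h1 := Nat.floor_le hq0
    have h2 := Nat.lt_floor_add_one q
    have h3 : (k (n i) p : ℝ) * Real.log p = q * (δ * L) := by
      rw [hq, div_mul_cancel₀ _ hδL.ne']
    constructor
    · rw [h3]
      calc δ * (⌊q⌋₊ : ℝ) * L = (⌊q⌋₊ : ℝ) * (δ * L) := by ring
        _ ≤ q * (δ * L) := mul_le_mul_of_nonneg_right h1 hδL.le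
    · rw [h3]
      calc q * (δ * L) ≤ ((⌊q⌋₊ : ℝ) + 1) * (δ * L) := mul_le_mul_of_nonneg_right h2.le hδL.le
        _ = (δ * (⌊q⌋₊ : ℝ) + δ) * L := by ring

end Pool.Agent.Helper9.FE
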